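import Pool.Agent.LIN.Top

/-!
# The Lindenbaum algebra of the theory of the structures whose complete theory is decidable and
# not finitely axiomatisable is the universal `Pi^0_4`-algebra

For every finite rich language `L` (`Enum L`: an enumeration of its symbols, `Rich L`), let `(B, γ)`
be the Lindenbaum algebra of `Th(N ∩ D)` (`IsLind (ThND E) γ`: the sentences modulo
`φ ↔ ψ ∈ Th(N ∩ D)`, unique up to isomorphism). Then

* `B` with its Goedel numeration `c ↦ γ (sent E c)` is a numerated `Pi^0_4`-algebra;
* every numerated `Pi^0_4`-algebra is isomorphic, as a Boolean algebra, to the algebra of the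
  elements below some `b` in `B`;
* every Boolean algebra which has a `Pi^0_4` numeration and this universal property is isomorphic
  to `B`; in particular `B` is isomorphic to the underlying algebra of every `Pi^0_4`-universal
  numerated algebra.

Definitions: `Pool/Agent/LIN/Defs.lean`, `Pool/Agent/LIN/LDefs.lean`. Nothing is assumed: the proof
contains a proof of the theorem of Hanf (`Pool.Agent.LIN.hanfStatement`) for Mathlib's first-order
sentences and of the enumerability of the valid sentences (`Pool.Agent.LIN.satStatement`).
-/

namespace Pool.Agent.Results.MP_8a350d_lc.CharacteristicPi4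

open Pool.Agent.LIN

theorem result (L : FirstOrder.Language.{0, 0}) (E : Enum L) (hL : Rich L) :
    (∃ (B : Type) (_ : BooleanAlgebra B) (γ : L.Sentence → B), IsLind (ThND E) γ) ∧
    ∀ (B : Type) [BooleanAlgebra B] (γ : L.Sentence → B), IsLind (ThND E) γ →
      PiAlg 4 (fun c => γ (sent E c)) ∧
      (∀ (A : Type) [BooleanAlgebra A] (α : ℕ → A), PiAlg 4 α →
        ∃ b : B, Nonempty (A ≃o Set.Iic b)) ∧
      (∀ (B' : Type) [BooleanAlgebra B'] (β : ℕ → B'), PiAlg 4 β →
        (∀ (A : Type) [BooleanAlgebra A] (α : ℕ → A), PiAlg 4 α →
          ∃ b : B', Nonempty (A ≃o Set.Iic b)) → Nonempty (B ≃o B')) ∧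
      ∀ (B' : Type) [BooleanAlgebra B'] (β : ℕ → B'), NumUniversal 4 β → Nonempty (B ≃o B') :=
  main_of finalStatement satStatement L E hL

end Pool.Agent.Results.MP_8a350d_lc.CharacteristicPi4
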